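import Pool.Agent.Helper36.RN.Goals
import Pool.Agent.Helper14.RS.Abs

/-! # Linear parabolic equations on `Sⁿ` (packet LAS of project RFn) -/

namespace Pool.Agent.Helper60.RN

open Set Filter Topology MeasureTheory Pool.Agent.Helper47.RFn Pool.Agent.Helper36.EV
  Pool.Agent.Helper36.RN Pool.Agent.Helper14.RS
open scoped ContDiff

variable {n : ℕ}

theorem yo {x C a b ε : ℝ} (hC : 0 ≤ C) (ha : 0 ≤ a) (hb : 0 ≤ b) (hε : 0 < ε)
    (h : x ^ 2 ≤ C * (a * b)) : x ≤ ε * a + C / (4 * ε) * b := by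
  have h1 : 0 ≤ ε * a + C / (4 * ε) * b := by positivity
  have h2 : x ^ 2 ≤ (ε * a + C / (4 * ε) * b) ^ 2 := by
    have h3 : (ε * a + C / (4 * ε) * b) ^ 2 =
        (ε * a - C / (4 * ε) * b) ^ 2 + C * (a * b) := by
      field_simp
      ring
    rw [h3]
    nlinarith [sq_nonneg (ε * a - C / (4 * ε) * b)]
  exact (le_abs_self x).trans (abs_le_of_sq_le_sq h2 h1)

theorem unif {ι : Type*} [Fintype ι] (C : ι → ℝ) : ∃ K, 0 ≤ K ∧ ∀ i, C i ≤ K :=
  ⟨∑ i, |C i|, Finset.sum_nonneg fun _ _ => abs_nonneg _, fun i =>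
    (le_abs_self _).trans (Finset.single_le_sum (f := fun j => |C j|)
      (fun _ _ => abs_nonneg _) (Finset.mem_univ i))⟩

theorem sn_sum_le {ι : Type*} (m : ℕ) (s : Finset ι) (f : ι → XS n) :
    sn m (∑ i ∈ s, f i) ≤ 2 ^ s.card * ∑ i ∈ s, sn m (f i) := by
  classical
  induction s using Finset.induction_on with
  | empty => simp [sn]
  | insert a s ha ih =>
    rw [Finset.sum_insert ha, Finset.sum_insert ha, Finset.card_insert_of_notMem ha]
    have h1 := sn_add_le m (f a) (∑ i ∈ s, f i)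
    have h2 : 0 ≤ sn m (f a) := sn_nonneg _ _
    have h4 : (1 : ℝ) ≤ 2 ^ s.card := one_le_pow₀ (by norm_num)
    have h5 : sn m (f a) ≤ 2 ^ s.card * sn m (f a) := by nlinarith
    rw [pow_succ]
    linarith

/-- the constant for sums over pairs -/
noncomputable def cK (n : ℕ) : ℝ := 2 ^ (Finset.univ : Finset (KK n)).card

theorem cK_pos (n : ℕ) : 0 < cK n := by unfold cK; positivity

theorem sn_sumK (m : ℕ) (f : KK n → XS n) : sn m (∑ p, f p) ≤ cK n * ∑ p, sn m (f p) :=
  sn_sum_le m _ f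

/-- number of pairs -/
noncomputable def nK (n : ℕ) : ℝ := ((Finset.univ : Finset (KK n)).card : ℝ)

theorem nK_nonneg (n : ℕ) : 0 ≤ nK n := by unfold nK; positivity

theorem sum_const_le (f : KK n → ℝ) (L : ℝ) (h : ∀ p, f p ≤ L) : ∑ p, f p ≤ nK n * L := by
  have := Finset.sum_le_card_nsmul Finset.univ f L fun p _ => h p
  rwa [nsmul_eq_mul] at this

/-- the right side with frozen coefficients -/
noncomputable def FL (a : KK n → KK n → XS n) (b : KK n → XS n) (u : XS n) : XS n :=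
  ∑ p, ∑ q, a p q * Ld p (Ld q u) + ∑ p, b p * Ld p u

theorem FL_sub (a : KK n → KK n → XS n) (b : KK n → XS n) (u v : XS n) :
    FL a b u - FL a b v = FL a b (u - v) := by
  unfold FL
  simp only [map_sub, mul_sub, Finset.sum_sub_distrib]
  abel

theorem FL_sub' (a a' : KK n → KK n → XS n) (b b' : KK n → XS n) (u : XS n) :
    FL a b u - FL a' b' u = FL (fun p q => a p q - a' p q) (fun p => b p - b' p) u := by
  unfold FL
  simp only [sub_mul, Finset.sum_sub_distrib]
  abel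

/-- the first-order coefficient in divergence form -/
noncomputable def cc (a : KK n → KK n → XS n) (b : KK n → XS n) (q : KK n) : XS n :=
  b q - ∑ p, Ld p (a p q)

theorem FL_div (a : KK n → KK n → XS n) (b : KK n → XS n) (u : XS n) :
    FL a b u = ∑ p, Ld p (∑ q, a p q * Ld q u) + ∑ q, cc a b q * Ld q u := by
  unfold FL cc
  simp only [map_sum, Derivation.leibniz, smul_eq_mul, Finset.sum_add_distrib, sub_mul,
    Finset.sum_sub_distrib, Finset.sum_mul]
  have h : ∑ p, ∑ q, Ld q u * Ld p (a p q) = ∑ q, ∑ p, Ld p (a p q) * Ld q u := by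
    rw [Finset.sum_comm]
    exact Finset.sum_congr rfl fun q _ => Finset.sum_congr rfl fun p _ => mul_comm _ _
  rw [h]
  abel

theorem sn_FL_le (hP : R_PRSA) (m : ℕ) : ∃ C, 0 ≤ C ∧
    ∀ (a : KK n → KK n → XS n) (b : KK n → XS n) (u : XS n),
      sn m (FL a b u) ≤ C * ((∑ p, ∑ q, sn (m + n + 1) (a p q) + ∑ p, sn (m + n + 1) (b p)) *
        sn (m + 2) u) := by
  obtain ⟨C, hC⟩ := (hP n).2.1 m
  have hc := cK_pos n
  refine ⟨2 * (cK n * cK n + cK n) * |C|, by positivity, fun a b u => ?_⟩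
  have h1 : ∀ i k, sn m (a i k * Ld i (Ld k u)) ≤
      |C| * (sn (m + n + 1) (a i k) * sn (m + 2) u) := by
    intro i k
    have h2 : sn m (Ld i (Ld k u)) ≤ sn (m + 2) u := (sn_Ld _ _ _).trans (sn_Ld _ _ _)
    calc _ ≤ _ := hC _ _
      _ ≤ |C| * (sn (m + n + 1) (a i k) * sn m (Ld i (Ld k u))) :=
        mul_le_mul_of_nonneg_right (le_abs_self C) (mul_nonneg (sn_nonneg _ _) (sn_nonneg _ _))
      _ ≤ _ := mul_le_mul_of_nonneg_left
        (mul_le_mul_of_nonneg_left h2 (sn_nonneg _ _)) (abs_nonneg C)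
  have h2 : ∀ i, sn m (b i * Ld i u) ≤ |C| * (sn (m + n + 1) (b i) * sn (m + 2) u) := by
    intro i
    have h2 : sn m (Ld i u) ≤ sn (m + 2) u := (sn_Ld _ _ _).trans (sn_mono (by omega) _)
    calc _ ≤ _ := hC _ _
      _ ≤ |C| * (sn (m + n + 1) (b i) * sn m (Ld i u)) :=
        mul_le_mul_of_nonneg_right (le_abs_self C) (mul_nonneg (sn_nonneg _ _) (sn_nonneg _ _))
      _ ≤ _ := mul_le_mul_of_nonneg_left
        (mul_le_mul_of_nonneg_left h2 (sn_nonneg _ _)) (abs_nonneg C)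
  set S1 : ℝ := ∑ i, ∑ k, sn m (a i k * Ld i (Ld k u)) with hS1
  set S2 : ℝ := ∑ i, sn m (b i * Ld i u) with hS2
  have hS10 : 0 ≤ S1 := Finset.sum_nonneg fun _ _ => Finset.sum_nonneg fun _ _ => sn_nonneg _ _
  have hS20 : 0 ≤ S2 := Finset.sum_nonneg fun _ _ => sn_nonneg _ _
  have h3 : sn m (FL a b u) ≤ 2 * (cK n * cK n + cK n) * (S1 + S2) := by
    unfold FL
    refine (sn_add_le m _ _).trans ?_
    have h4 := sn_sumK m (fun i => ∑ k, a i k * Ld i (Ld k u))
    have h5 : ∑ i, sn m (∑ k, a i k * Ld i (Ld k u)) ≤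
        ∑ i, cK n * ∑ k, sn m (a i k * Ld i (Ld k u)) :=
      Finset.sum_le_sum fun i _ => sn_sumK m _
    rw [← Finset.mul_sum] at h5
    have h6 := sn_sumK m (fun i => b i * Ld i u)
    have h7 := mul_le_mul_of_nonneg_left h5 hc.le
    have h8 : sn m (∑ i, ∑ k, a i k * Ld i (Ld k u)) ≤ cK n * cK n * S1 := by
      refine h4.trans (h7.trans (le_of_eq ?_))
      ring
    have h9 : 0 ≤ cK n * cK n * S2 := by positivity
    have h10 : 0 ≤ cK n * S1 := by positivity
    nlinarith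
  have h4 : S1 ≤ ∑ i, ∑ k, |C| * (sn (m + n + 1) (a i k) * sn (m + 2) u) :=
    Finset.sum_le_sum fun i _ => Finset.sum_le_sum fun k _ => h1 i k
  have h5 : S2 ≤ ∑ i, |C| * (sn (m + n + 1) (b i) * sn (m + 2) u) :=
    Finset.sum_le_sum fun i _ => h2 i
  have h6 : ∑ i, ∑ k, |C| * (sn (m + n + 1) (a i k) * sn (m + 2) u) +
      ∑ i, |C| * (sn (m + n + 1) (b i) * sn (m + 2) u) =
      |C| * ((∑ i, ∑ k, sn (m + n + 1) (a i k) + ∑ i, sn (m + n + 1) (b i)) *
        sn (m + 2) u) := by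
    simp only [← Finset.mul_sum, ← Finset.sum_mul]
    ring
  calc _ ≤ 2 * (cK n * cK n + cK n) * (S1 + S2) := h3
    _ ≤ 2 * (cK n * cK n + cK n) *
        (|C| * ((∑ i, ∑ k, sn (m + n + 1) (a i k) + ∑ i, sn (m + n + 1) (b i)) *
        sn (m + 2) u)) := by
        apply mul_le_mul_of_nonneg_left _ (by positivity)
        rw [← h6]
        linarith
    _ = _ := by ring

theorem cc_bd {a : KK n → KK n → XS n} {b : KK n → XS n} {m : ℕ} {L : ℝ}
    (ha : ∀ i k, sn (m + 1) (a i k) ≤ L) (hb : ∀ i, sn (m + 1) (b i) ≤ L) (k : KK n) :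
    sn m (cc a b k) ≤ 2 * (1 + cK n * nK n) * L := by
  unfold cc
  rw [sub_eq_add_neg]
  refine (sn_add_le m _ _).trans ?_
  rw [sn_neg]
  have h1 := sn_sumK m (fun i => Ld i (a i k))
  have h2 : ∑ i, sn m (Ld i (a i k)) ≤ nK n * L :=
    sum_const_le _ _ fun i => (sn_Ld _ _ _).trans (ha i k)
  have h3 := (sn_mono (by omega : m ≤ m + 1) (b k)).trans (hb k)
  have h4 := mul_le_mul_of_nonneg_left h2 (cK_pos n).le
  linarith

/-- the elliptic estimate, in homogeneous form -/
theorem ell_hom (hE : R_ELL) (m : ℕ) (hm : 2 * n + 6 ≤ m) (lam : ℝ) (hlam : 0 < lam) (L : ℝ)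
    (hL : 0 ≤ L) : ∃ C, 0 ≤ C ∧ ∀ (a : KK n → KK n → XS n) (v : XS n),
      (∀ p q, sn m (a p q) ≤ L) → EllA lam a →
      bf m v (∑ p, Ld p (∑ q, a p q * Ld q v)) ≤ - (lam / 2) * sn (m + 1) v + C * sn m v := by
  obtain ⟨C, hC0, hC⟩ := hE n m hm lam hlam (L + 1)
  have hN := nK_nonneg n
  refine ⟨C * (1 + nK n * (nK n * L)), by positivity, fun a v ha hell => ?_⟩
  have hs0 := sn_nonneg (m - 1) v
  rcases hs0.eq_or_lt with h0 | h0
  · -- `v = 0`
    have h1 : ip v v = 0 := by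
      have h2 : sn 0 v ≤ sn (m - 1) v := sn_mono (by omega) v
      rw [sn_zero, ← h0] at h2
      exact le_antisymm h2 (ip_nonneg v)
    have h2 := eq_zero_of_ip h1
    subst h2
    have h3 : ∀ k, sn k (0 : XS n) = 0 := fun k => by simp [sn]
    rw [h3, h3]
    simp
  · set r : ℝ := sn (m - 1) v with hr
    set c : ℝ := (Real.sqrt r)⁻¹ with hc
    have hsr : 0 < Real.sqrt r := Real.sqrt_pos.2 h0
    have hc0 : 0 < c := inv_pos.2 hsr
    have hc2 : c ^ 2 * r = 1 := by
      rw [hc, inv_pow, Real.sq_sqrt h0.le]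
      exact inv_mul_cancel₀ h0.ne'
    have h1 := hC a (c • v) (fun p q => ((sn_mono (by omega) _).trans (ha p q)).trans (by linarith))
      (by rw [sn_smul, ← hr, hc2]; linarith) hell
    have h2 : (∑ p, Ld p (∑ q, a p q * Ld q (c • v))) = c • ∑ p, Ld p (∑ q, a p q * Ld q v) := by
      rw [Finset.smul_sum]
      refine Finset.sum_congr rfl fun p _ => ?_
      rw [← (Ld p).map_smul, Finset.smul_sum]
      congr 1
      refine Finset.sum_congr rfl fun q _ => ?_
      rw [(Ld q).map_smul, mul_smul_comm]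
    rw [h2] at h1
    simp only [map_smul, LinearMap.smul_apply, smul_eq_mul, sn_smul] at h1
    have h3 : ∑ p, ∑ q, sn m (a p q) ≤ nK n * (nK n * L) :=
      sum_const_le _ _ fun p => sum_const_le _ _ fun q => ha p q
    have h4 : r ≤ sn m v := sn_mono (by omega) v
    set B := bf m v (∑ p, Ld p (∑ q, a p q * Ld q v)) with hB
    set Sg := ∑ p, ∑ q, sn m (a p q) with hSg
    have hc2' : 0 < c ^ 2 := by positivity
    have h5 : c ^ 2 * B ≤ c ^ 2 * (-(lam / 2) * sn (m + 1) v +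
        C * (1 + nK n * (nK n * L)) * sn m v) := by
      have h6 : c * (c * B) ≤ -(lam / 2) * (c ^ 2 * sn (m + 1) v) +
          C * (c ^ 2 * sn m v + Sg) := h1
      have h7 : Sg ≤ c ^ 2 * (nK n * (nK n * L) * sn m v) := by
        calc Sg ≤ nK n * (nK n * L) := h3
          _ = nK n * (nK n * L) * (c ^ 2 * r) := by rw [hc2, mul_one]
          _ ≤ nK n * (nK n * L) * (c ^ 2 * sn m v) := by
            apply mul_le_mul_of_nonneg_left _ (by positivity)
            exact mul_le_mul_of_nonneg_left h4 hc2'.le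
          _ = _ := by ring
      have h8 := mul_le_mul_of_nonneg_left h7 hC0
      nlinarith
    exact le_of_mul_le_mul_left h5 hc2'

theorem energy (hP : R_PRSA) (hPB : G_PRSB) (hE : R_ELL)
    (m : ℕ) (hm : 2 * n + 6 ≤ m) (lam : ℝ) (hlam : 0 < lam) (L : ℝ) (hL : 0 ≤ L) : ∃ C, 0 ≤ C ∧
    ∀ (a : KK n → KK n → XS n) (b : KK n → XS n) (v : XS n), (∀ i k, sn (m + 1) (a i k) ≤ L) →
      (∀ i, sn (m + 1) (b i) ≤ L) → EllA lam a →
      bf m v (FL a b v) ≤ C * sn m v := by
  obtain ⟨C, hC0, hC⟩ := ell_hom hE m hm lam hlam L hL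
  obtain ⟨G, hG⟩ := (hPB n).2.2 m (by omega)
  obtain ⟨H, hH⟩ := (hP n).2.2.2 (m - 1) (by omega)
  have hN := nK_nonneg n
  have hcK := cK_pos n
  set K := |H| * (2 * (1 + cK n * nK n) * L) with hK
  have hK0 : 0 ≤ K := by positivity
  set ε : ℝ := lam / (2 * (nK n + 1)) with hε
  have hε0 : 0 < ε := by positivity
  refine ⟨C + nK n * (|G| / (4 * ε) * K), by positivity, fun a b v ha hb hell => ?_⟩
  rw [FL_div, map_add]
  have h1 := hC a v (fun i k => (sn_mono (by omega) _).trans (ha i k)) hell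
  have h2 : ∀ k, bf m v (cc a b k * Ld k v) ≤ ε * sn (m + 1) v +
      |G| / (4 * ε) * (K * sn m v) := by
    intro k
    have h3 : sn (m - 1) (cc a b k * Ld k v) ≤ K * sn m v := by
      have h4 := cc_bd ha hb k
      have h5 : sn (m - 1) (Ld k v) ≤ sn m v := by
        have := sn_Ld (m - 1) k v
        rwa [show m - 1 + 1 = m by omega] at this
      calc _ ≤ _ := hH _ _
        _ ≤ |H| * (sn (m - 1) (cc a b k) * sn (m - 1) (Ld k v)) :=
          mul_le_mul_of_nonneg_right (le_abs_self H)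
            (mul_nonneg (sn_nonneg _ _) (sn_nonneg _ _))
        _ ≤ |H| * (2 * (1 + cK n * nK n) * L * sn m v) := mul_le_mul_of_nonneg_left
          (mul_le_mul ((sn_mono (by omega) _).trans h4) h5 (sn_nonneg _ _) (by positivity))
          (abs_nonneg H)
        _ = _ := by rw [hK]; ring
    have h4 := hG v (cc a b k * Ld k v)
    have h5 : bf m v (cc a b k * Ld k v) ≤ ε * sn (m + 1) v +
        |G| / (4 * ε) * sn (m - 1) (cc a b k * Ld k v) := by
      refine yo (abs_nonneg G) (sn_nonneg _ _) (sn_nonneg _ _) hε0 (h4.trans ?_)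
      exact mul_le_mul_of_nonneg_right (le_abs_self G) (mul_nonneg (sn_nonneg _ _) (sn_nonneg _ _))
    have h6 : |G| / (4 * ε) * sn (m - 1) (cc a b k * Ld k v) ≤
        |G| / (4 * ε) * (K * sn m v) := mul_le_mul_of_nonneg_left h3 (by positivity)
    linarith
  have h3 : bf m v (∑ k, cc a b k * Ld k v) ≤ lam / 2 * sn (m + 1) v +
      nK n * (|G| / (4 * ε) * (K * sn m v)) := by
    rw [map_sum]
    have h4 := sum_const_le _ _ h2
    have h5 : nK n * ε ≤ lam / 2 := by
      rw [hε, ← mul_div_assoc, div_le_iff₀ (by positivity)]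
      nlinarith
    have h6 := mul_le_mul_of_nonneg_right h5 (sn_nonneg (m + 1) v)
    calc _ ≤ nK n * (ε * sn (m + 1) v + |G| / (4 * ε) * (K * sn m v)) := h4
      _ = nK n * ε * sn (m + 1) v + nK n * (|G| / (4 * ε) * (K * sn m v)) := by ring
      _ ≤ _ := by linarith
  have h5 : (C + nK n * (|G| / (4 * ε) * K)) * sn m v =
      C * sn m v + nK n * (|G| / (4 * ε) * (K * sn m v)) := by ring
  rw [h5]
  linarith

theorem ip_mul (u v : XS n) : ip u v = ip 1 (u * v) := by
  rw [← ip_mul_left, one_mul]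

/-- integrated ellipticity -/
theorem ell_int {lam : ℝ} (a : KK n → KK n → XS n) (w : XS n) (h : EllA lam a) :
    lam * ∑ i, ip (Ld i w) (Ld i w) ≤ ∑ i, ip (Ld i w) (∑ k, a i k * Ld k w) := by
  have e1 : ∑ i, ip (Ld i w) (∑ k, a i k * Ld k w) =
      ip 1 (∑ i, Ld i w * ∑ k, a i k * Ld k w) := by
    rw [map_sum]
    exact Finset.sum_congr rfl fun i _ => ip_mul _ _
  have e2 : lam * ∑ i, ip (Ld i w) (Ld i w) = ip 1 (lam • ∑ i, Ld i w * Ld i w) := by
    rw [map_smul, map_sum, smul_eq_mul]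
    congr 1
    exact Finset.sum_congr rfl fun i _ => ip_mul _ _
  rw [e1, e2]
  apply ip_mono
  intro x
  rw [one_val, one_mul, one_mul, smul_val, sum_val, sum_val]
  have h1 := h w x
  calc lam * ∑ i, (Ld i w * Ld i w).1 x = lam * ∑ p, (Ld p w).1 x ^ 2 := by
        congr 1
        exact Finset.sum_congr rfl fun i _ => by rw [mul_val, sq]
    _ ≤ _ := h1
    _ = _ := by
        refine Finset.sum_congr rfl fun p _ => ?_
        rw [mul_val, sum_val, Finset.mul_sum]
        refine Finset.sum_congr rfl fun q _ => ?_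
        rw [mul_val]
        ring

theorem young {ε : ℝ} (hε : 0 < ε) (u v : XS n) :
    ip u v ≤ ε * ip v v + (4 * ε)⁻¹ * ip u u := by
  have h1 := cs_ip u v
  have h2 := ip_nonneg u
  have h3 := ip_nonneg v
  have h4 : 0 ≤ ε * ip v v + (4 * ε)⁻¹ * ip u u := by positivity
  have h5 : ip u u * ip v v ≤ (ε * ip v v + (4 * ε)⁻¹ * ip u u) ^ 2 := by
    have h6 : (ε * ip v v + (4 * ε)⁻¹ * ip u u) ^ 2 =
        (ε * ip v v - (4 * ε)⁻¹ * ip u u) ^ 2 + ip u u * ip v v := by
      field_simp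
      ring
    rw [h6]
    linarith [sq_nonneg (ε * ip v v - (4 * ε)⁻¹ * ip u u)]
  exact (le_abs_self _).trans (abs_le_of_sq_le_sq (h1.trans h5) h4)

theorem energy0 (hP : R_PRSA) (lam : ℝ) (hlam : 0 < lam) (L : ℝ) (hL : 0 ≤ L) :
    ∃ C, 0 ≤ C ∧ ∀ (a : KK n → KK n → XS n) (b : KK n → XS n) (v : XS n),
      (∀ i k, sn (n + 2) (a i k) ≤ L) → (∀ i, sn (n + 2) (b i) ≤ L) → EllA lam a →
      bf 0 v (FL a b v) ≤ C * sn 0 v := by
  obtain ⟨H, hH⟩ := (hP n).2.1 0
  have hN := nK_nonneg n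
  have hcK := cK_pos n
  set K := |H| * (2 * (1 + cK n * nK n) * L) with hK
  have hK0 : 0 ≤ K := by positivity
  set ε := lam / (K + 1) with hε
  have hεpos : 0 < ε := by positivity
  have hεK : ε * K ≤ lam := by
    rw [hε, div_mul_eq_mul_div, div_le_iff₀ (by positivity)]
    nlinarith
  refine ⟨nK n * (4 * ε)⁻¹, by positivity, fun a b v ha hb hell => ?_⟩
  rw [FL_div, map_add, bf_zero, bf_zero, sn_zero, map_sum, map_sum]
  have h1 : ∑ p, ip v (Ld p (∑ q, a p q * Ld q v)) =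
      - ∑ p, ip (Ld p v) (∑ q, a p q * Ld q v) := by
    rw [← Finset.sum_neg_distrib]
    refine Finset.sum_congr rfl fun p _ => ?_
    rw [ibp]
    ring
  have h2 := ell_int a v hell
  have h3 : ∀ k, ip v (cc a b k * Ld k v) ≤ lam * ip (Ld k v) (Ld k v) +
      (4 * ε)⁻¹ * ip v v := by
    intro k
    have h4 : sn 0 (cc a b k * Ld k v) ≤ K * sn 0 (Ld k v) := by
      have h5 := cc_bd (m := n + 1) ha hb k
      calc _ ≤ _ := hH _ _
        _ ≤ |H| * (sn (0 + n + 1) (cc a b k) * sn 0 (Ld k v)) :=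
          mul_le_mul_of_nonneg_right (le_abs_self H)
            (mul_nonneg (sn_nonneg _ _) (sn_nonneg _ _))
        _ ≤ |H| * (2 * (1 + cK n * nK n) * L * sn 0 (Ld k v)) := by
          apply mul_le_mul_of_nonneg_left _ (abs_nonneg H)
          apply mul_le_mul_of_nonneg_right _ (sn_nonneg _ _)
          rwa [Nat.zero_add]
        _ = _ := by rw [hK]; ring
    rw [sn_zero, sn_zero] at h4
    have h5 := young hεpos v (cc a b k * Ld k v)
    have h6 : ε * ip (cc a b k * Ld k v) (cc a b k * Ld k v) ≤ lam * ip (Ld k v) (Ld k v) := by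
      calc _ ≤ ε * (K * ip (Ld k v) (Ld k v)) := mul_le_mul_of_nonneg_left h4 hεpos.le
        _ = ε * K * ip (Ld k v) (Ld k v) := by ring
        _ ≤ _ := mul_le_mul_of_nonneg_right hεK (ip_nonneg _)
    linarith
  have h4 : ∑ k, ip v (cc a b k * Ld k v) ≤ lam * ∑ k, ip (Ld k v) (Ld k v) +
      nK n * ((4 * ε)⁻¹ * ip v v) := by
    refine (Finset.sum_le_sum fun k _ => h3 k).trans ?_
    rw [Finset.sum_add_distrib, ← Finset.mul_sum]
    have := sum_const_le (n := n) (fun _ => (4 * ε)⁻¹ * ip v v) _ fun _ => le_rfl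
    linarith
  rw [h1]
  have h5 : nK n * (4 * ε)⁻¹ * ip v v = nK n * ((4 * ε)⁻¹ * ip v v) := by ring
  rw [h5]
  linarith

/-- continuity along sequences -/
theorem cc_lim {T : ℝ} {y : ℝ → XS n} (hy : CC T y) (m : ℕ) {t : ℕ → ℝ} {t' : ℝ}
    (ht : ∀ k, t k ∈ Icc 0 T) (ht' : t' ∈ Icc 0 T) (hl : Tendsto t atTop (𝓝 t')) :
    Tendsto (fun k => sn m (y (t k) - y t')) atTop (𝓝 0) := by
  rw [Metric.tendsto_atTop]
  intro ε hε
  obtain ⟨η, hη, h⟩ := hy m t' ht' (ε / 2) (by positivity)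
  rw [Metric.tendsto_atTop] at hl
  obtain ⟨N, hN⟩ := hl η hη
  refine ⟨N, fun k hk => ?_⟩
  rw [Real.dist_eq, sub_zero, abs_of_nonneg (sn_nonneg _ _)]
  have h1 := hN k hk
  rw [Real.dist_eq] at h1
  have h2 := h (t k) (ht k) h1.le
  linarith

/-- coefficients bounded in all orders on the time interval -/
theorem coef_bd (hC : R_CDA) {T : ℝ} {a : KK n → KK n → ℝ → XS n} {b : KK n → ℝ → XS n}
    (ha : ∀ p q, CC T (a p q)) (hb : ∀ p, CC T (b p)) (m : ℕ) :
    ∃ L, 0 ≤ L ∧ ∀ t ∈ Icc 0 T,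
      (∀ p q, sn m (a p q t) ≤ L) ∧ (∀ p, sn m (b p t) ≤ L) := by
  have hbd : ∀ y : ℝ → XS n, CC T y → ∃ L, ∀ t ∈ Icc 0 T, sn m (y t) ≤ L := by
    intro y hy
    obtain ⟨-, -, -, -, -, -, -, -, -, -, -, -, -, -, -, -, -, -, -, -, -, -, h, -⟩ := hC n T
    exact h y hy m
  choose A hA using fun q : KK n × KK n => hbd (a q.1 q.2) (ha q.1 q.2)
  choose B hB using fun q : KK n => hbd (b q) (hb q)
  obtain ⟨KA, hKA0, hKA⟩ := unif A
  obtain ⟨KB, hKB0, hKB⟩ := unif B
  refine ⟨KA + KB, by positivity, fun t ht => ⟨fun i k => ?_, fun i => ?_⟩⟩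
  · linarith [hA (i, k) t ht, hKA (i, k)]
  · linarith [hB i t ht, hKB i]

theorem las : G_LAS := by
  intro hmain _ hP hPB hE hCDA hsc n hn T lam a b f hT hlam ha hb hell
  obtain ⟨S, hSB⟩ := hsc n hn Unit
  have hB : ∀ m (y z : Unit → XS n), S.B m y z = bf m (y ()) (z ()) := by
    intro m y z
    rw [hSB]
    simp
  have hq : ∀ m (y : Unit → XS n), S.q m y = sn m (y ()) := fun m y => hB m y y
  set A : ℝ → KK n → KK n → XS n := fun t i k => a i k t with hA
  set Bc : ℝ → KK n → XS n := fun t i => b i t with hBc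
  set F : ℝ → (Unit → XS n) → Unit → XS n := fun t y _ => FL (A t) (Bc t) (y ()) with hF
  set y0 : Unit → XS n := fun _ => f with hy0
  have hN := nK_nonneg n
  -- bounds of the right side
  have hbd : ∀ m, ∃ C, 0 ≤ C ∧ ∀ t ∈ Icc 0 T, ∀ u : XS n,
      sn m (FL (A t) (Bc t) u) ≤ C * sn (m + 2) u := by
    intro m
    obtain ⟨C, hC0, hC⟩ := sn_FL_le (n := n) hP m
    obtain ⟨L, hL0, hL⟩ := coef_bd hCDA ha hb (m + n + 1)
    refine ⟨C * (nK n * (nK n * L) + nK n * L), by positivity, fun t ht u => ?_⟩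
    refine (hC (A t) (Bc t) u).trans ?_
    have h1 : ∑ i, ∑ k, sn (m + n + 1) (A t i k) ≤ nK n * (nK n * L) :=
      sum_const_le _ _ fun i => sum_const_le _ _ fun k => (hL t ht).1 i k
    have h2 : ∑ i, sn (m + n + 1) (Bc t i) ≤ nK n * L :=
      sum_const_le _ _ fun i => (hL t ht).2 i
    rw [mul_assoc]
    refine mul_le_mul_of_nonneg_left (mul_le_mul_of_nonneg_right ?_ (sn_nonneg _ _)) hC0
    linarith
  -- energy estimates
  have hen : ∀ m, 2 * n + 6 ≤ m → ∃ C, 0 ≤ C ∧ ∀ t ∈ Icc 0 T, ∀ u : XS n,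
      bf m u (FL (A t) (Bc t) u) ≤ C * sn m u := by
    intro m hm
    obtain ⟨L, hL0, hL⟩ := coef_bd hCDA ha hb (m + 1)
    obtain ⟨C, hC0, hC⟩ := energy hP hPB hE m hm lam hlam L hL0
    exact ⟨C, hC0, fun t ht u => hC (A t) (Bc t) u (hL t ht).1 (hL t ht).2 (hell t ht)⟩
  obtain ⟨L5, hL50, hL5⟩ := coef_bd hCDA ha hb (n + 2)
  obtain ⟨C0, hC00, hC0⟩ := energy0 (n := n) hP lam hlam L5 hL50
  obtain ⟨C1, hC10, hC1⟩ := hen (2 * n + 6) le_rfl
  obtain ⟨D, hD0, hD⟩ := hbd 0
  set R : ℝ := Real.exp (2 * C1 * T) * (1 + sn (2 * n + 6) f) with hR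
  have hR0 : 0 ≤ R := mul_nonneg (Real.exp_pos _).le (by linarith [sn_nonneg (2 * n + 6) f])
  let E : Evo S :=
    { F := F
      T := T
      τ := T
      u0 := y0
      s := 2 * n + 6
      m0 := 0
      m4 := 0
      R := R
      r := D * R * T ^ 2 + 1
      C1 := C1
      C2 := D * R
      hτ := hT
      hτT := le_rfl
      hC1 := hC10
      hr := add_pos_of_nonneg_of_pos (mul_nonneg (mul_nonneg hD0 hR0) (sq_nonneg T)) one_pos
      F0 := by
        intro t x t' x' ht ht' hl hx m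
        have h1 : ∀ k, F (t k) (x k) - F t' x' =
            (fun _ => FL (A (t k)) (Bc (t k)) (x k () - x' ())) +
            (fun _ => FL (fun i j => A (t k) i j - A t' i j) (fun i => Bc (t k) i - Bc t' i)
              (x' ())) := by
          intro k
          funext q
          change FL (A (t k)) (Bc (t k)) (x k ()) - FL (A t') (Bc t') (x' ()) =
            FL (A (t k)) (Bc (t k)) (x k () - x' ()) + FL (fun i j => A (t k) i j - A t' i j)
              (fun i => Bc (t k) i - Bc t' i) (x' ())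
          rw [← FL_sub, ← FL_sub']
          abel
        obtain ⟨G, hG0, hG⟩ := sn_FL_le (n := n) hP m
        obtain ⟨H, hH0, hH⟩ := hbd m
        have h2 : Tendsto (fun k => 2 * (H * S.q (m + 2) (x k - x') +
            G * ((∑ i, ∑ j, sn (m + n + 1) (a i j (t k) - a i j t') +
              ∑ i, sn (m + n + 1) (b i (t k) - b i t')) * sn (m + 2) (x' ())))) atTop
            (𝓝 (2 * (H * 0 + G * ((∑ _i : KK n, ∑ _k : KK n, 0 + ∑ _i : KK n, 0) *
              sn (m + 2) (x' ()))))) := by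
          refine Tendsto.const_mul 2 (Tendsto.add ((hx (m + 2)).const_mul H)
            (Tendsto.const_mul G (Tendsto.mul_const _ (Tendsto.add ?_ ?_))))
          · exact tendsto_finsetSum _ fun i _ => tendsto_finsetSum _ fun k _ =>
              cc_lim (ha i k) (m + n + 1) ht ht' hl
          · exact tendsto_finsetSum _ fun i _ => cc_lim (hb i) (m + n + 1) ht ht' hl
        have h3 : (2 * (H * 0 + G * ((∑ _i : KK n, ∑ _k : KK n, (0 : ℝ) + ∑ _i : KK n, 0) *
              sn (m + 2) (x' ())))) = 0 := by simp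
        rw [h3] at h2
        refine squeeze_zero (fun k => S.q_nonneg _ _) (fun k => ?_) h2
        rw [h1]
        refine (q_add_le S m _ _).trans ?_
        have h4 : S.q m (fun _ => FL (A (t k)) (Bc (t k)) (x k () - x' ())) ≤
            H * S.q (m + 2) (x k - x') := by
          rw [hq, hq]
          exact hH (t k) (ht k) (x k () - x' ())
        have h5 : S.q m (fun _ => FL (fun i j => A (t k) i j - A t' i j)
            (fun i => Bc (t k) i - Bc t' i) (x' ())) ≤
            G * ((∑ i, ∑ j, sn (m + n + 1) (a i j (t k) - a i j t') +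
              ∑ i, sn (m + n + 1) (b i (t k) - b i t')) * sn (m + 2) (x' ())) := by
          rw [hq]
          exact hG (fun i j => A (t k) i j - A t' i j) (fun i => Bc (t k) i - Bc t' i) (x' ())
        linarith
      F1 := by
        intro m
        obtain ⟨C, hC0, hC⟩ := hbd m
        refine ⟨m + 2, fun L => ⟨C * L, fun t ht x hx => ?_⟩⟩
        rw [hq] at hx ⊢
        exact (hC t ht (x ())).trans (mul_le_mul_of_nonneg_left hx hC0)
      F2 := by
        refine ⟨2, fun L => ⟨D, fun t ht x y _ _ => ?_⟩⟩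
        rw [hq, hq]
        change sn 0 (FL (A t) (Bc t) (x ()) - FL (A t) (Bc t) (y ())) ≤ D * sn 2 (x () - y ())
        rw [FL_sub]
        exact hD t ht _
      F3s := by
        intro t ht x _ _
        rw [hB, hq]
        have h1 := hC1 t ht (x ())
        have h2 : C1 * sn (2 * n + 6) (x ()) ≤ C1 * (1 + sn (2 * n + 6) (x ())) :=
          mul_le_mul_of_nonneg_left (by linarith) hC10
        have h3 : F t x () = FL (A t) (Bc t) (x ()) := rfl
        rw [h3]
        exact h1.trans h2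
      F3 := by
        intro m hm L
        obtain ⟨C, hC0, hC⟩ := hen m (by omega)
        refine ⟨C, fun t ht x _ _ _ => ?_⟩
        rw [hB, hq]
        refine (hC t ht (x ())).trans (mul_le_mul_of_nonneg_left ?_ hC0)
        linarith [sn_nonneg m (x ())]
      F4 := by
        intro L
        refine ⟨C0, fun t ht x y _ _ _ _ _ _ => ?_⟩
        rw [hB, hq]
        change bf 0 (x () - y ()) (FL (A t) (Bc t) (x ()) - FL (A t) (Bc t) (y ())) ≤
          C0 * sn 0 (x () - y ())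
        rw [FL_sub]
        exact hC0 (A t) (Bc t) _ (hL5 t ht).1 (hL5 t ht).2 (hell t ht)
      F5 := by
        intro t ht x hx _
        rw [hq] at hx ⊢
        exact (hD t ht (x ())).trans (mul_le_mul_of_nonneg_left
          ((sn_mono (by omega) _).trans hx) hD0)
      small := by
        rw [hq]
        change Real.exp (2 * C1 * T) * (1 + sn (2 * n + 6) f) < 1 + R
        rw [← hR]
        linarith
      small' := by linarith }
  obtain ⟨y, hy⟩ := hmain (Unit → XS n) (Unit → LL n) S E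
  have hinit : y 0 = y0 := hy.init
  refine ⟨fun t => y t (), ?_, ?_⟩
  · change y 0 () = f
    rw [hinit]
  · refine ⟨fun m => ?_, fun m t ht δ hδ => ?_, fun m t ht δ hδ => ?_⟩
    · obtain ⟨L, hL⟩ := hy.bdd m
      refine ⟨L, fun t ht => ?_⟩
      have h1 := hL t ht
      rwa [hq] at h1
    · obtain ⟨η, hη, h⟩ := sol_F_cont E hy m (t := t) ht (δ := δ) hδ
      refine ⟨η, hη, fun s hs hst => ?_⟩
      have h1 := h s hs hst
      rwa [hq] at h1
    · obtain ⟨η, hη, h⟩ := hy.der m t ht δ hδ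
      refine ⟨η, hη, fun s hs hst => ?_⟩
      have h1 := h s hs hst
      rwa [hq] at h1

end Pool.Agent.Helper60.RN
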